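import Pool.Agent.Helper236.Count

/-!
Bruen and Thas: tangency sets in a projective plane of square order `m ^ 2`.
-/

set_option autoImplicit false

namespace Pool.Agent.Y391.TB

open Set Module Submodule Pool.Agent.Helper236

section

variable {F V : Type*} [Field F] [AddCommGroup V] [Module F V] [Finite F] [FiniteDimensional F V]

open Classical in
theorem card1 [Fintype (V →ₗ[F] F)] (hV : finrank F V = 3) {w : V} (hw : w ≠ 0) :
    (Finset.univ.filter (fun φ : V →ₗ[F] F => φ w = 0)).card = Nat.card F ^ 2 := by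
  have h1 := card_dual_killing (F := F) (span F {w})
  rw [hV, finrank_span_singleton hw] at h1
  rw [← Fintype.card_subtype, ← Nat.card_eq_fintype_card]
  have h2 : Nat.card {φ : V →ₗ[F] F // φ w = 0} =
      Nat.card {f : V →ₗ[F] F // ∀ x ∈ span F {w}, f x = 0} := by
    apply Nat.card_congr
    apply Equiv.subtypeEquivRight
    intro φ
    constructor
    · intro h x hx
      obtain ⟨c, rfl⟩ := mem_span_singleton.1 hx
      rw [map_smul, h, smul_zero]
    · intro h
      exact h _ (mem_span_singleton_self _)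
  rw [h2, h1]

open Classical in
theorem card2 [Fintype (V →ₗ[F] F)] (hV : finrank F V = 3) {w w' : V}
    (hind : LinearIndependent F ![w, w']) :
    (Finset.univ.filter (fun φ : V →ₗ[F] F => φ w = 0 ∧ φ w' = 0)).card = Nat.card F := by
  have h1 := card_dual_killing (F := F) (span F (Set.range ![w, w']))
  have h3 : finrank F (span F (Set.range ![w, w'])) = 2 := by
    rw [finrank_span_eq_card hind]
    simp
  rw [hV, h3] at h1
  rw [← Fintype.card_subtype, ← Nat.card_eq_fintype_card]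
  have h2 : Nat.card {φ : V →ₗ[F] F // φ w = 0 ∧ φ w' = 0} =
      Nat.card {f : V →ₗ[F] F // ∀ x ∈ span F (Set.range ![w, w']), f x = 0} := by
    apply Nat.card_congr
    apply Equiv.subtypeEquivRight
    intro φ
    constructor
    · intro h x hx
      have : span F (Set.range ![w, w']) ≤ LinearMap.ker φ := by
        rw [span_le]
        rintro _ ⟨t, rfl⟩
        fin_cases t
        · exact h.1
        · exact h.2
      exact this hx
    · intro h
      exact ⟨h _ (subset_span ⟨0, rfl⟩), h _ (subset_span ⟨1, rfl⟩)⟩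
  rw [h2, h1]
  norm_num

open Classical in
/-- the number of zeros of a functional -/
noncomputable def nz {s : ℕ} (w : Fin s → V) (φ : V →ₗ[F] F) : ℤ :=
  ∑ i, if φ (w i) = 0 then 1 else 0

open Classical in
theorem sum_sq [Fintype (V →ₗ[F] F)] (hV : finrank F V = 3) {s : ℕ} (w : Fin s → V)
    (hw : ∀ i, w i ≠ 0) (hind : ∀ i j, i ≠ j → LinearIndependent F ![w i, w j]) (c : ℤ) :
    ∑ φ : V →ₗ[F] F, (nz w φ - c) ^ 2 = s * (Nat.card F : ℤ) ^ 2 +
      s * (s - 1) * (Nat.card F : ℤ) - 2 * c * s * (Nat.card F : ℤ) ^ 2 +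
      c ^ 2 * (Nat.card F : ℤ) ^ 3 := by
  have hcard0 : (Fintype.card (V →ₗ[F] F) : ℤ) = (Nat.card F : ℤ) ^ 3 := by
    rw [← Nat.card_eq_fintype_card, Module.natCard_eq_pow_finrank (K := F),
      Module.finrank_linearMap, Module.finrank_self, hV]
    push_cast
    ring
  have hsum1 : ∑ φ : V →ₗ[F] F, nz w φ = s * (Nat.card F : ℤ) ^ 2 := by
    unfold nz
    rw [Finset.sum_comm]
    have : ∀ i : Fin s, (∑ φ : V →ₗ[F] F, if φ (w i) = 0 then (1 : ℤ) else 0) =
        (Nat.card F : ℤ) ^ 2 := by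
      intro i
      rw [Finset.sum_boole, card1 hV (hw i)]
      push_cast
      ring
    rw [Finset.sum_congr rfl (fun i _ => this i), Finset.sum_const, Finset.card_univ,
      Fintype.card_fin, nsmul_eq_mul]
  have hsum2 : ∑ φ : V →ₗ[F] F, nz w φ * nz w φ = s * (Nat.card F : ℤ) ^ 2 +
      s * (s - 1) * (Nat.card F : ℤ) := by
    have h1 : ∀ φ : V →ₗ[F] F, nz w φ * nz w φ = ∑ i : Fin s, ∑ j : Fin s,
        if φ (w i) = 0 ∧ φ (w j) = 0 then (1 : ℤ) else 0 := by
      intro φ
      unfold nz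
      rw [Finset.sum_mul_sum]
      refine Finset.sum_congr rfl fun i _ => Finset.sum_congr rfl fun j _ => ?_
      by_cases h1 : φ (w i) = 0 <;> by_cases h2 : φ (w j) = 0 <;> simp [h1, h2]
    rw [Finset.sum_congr rfl (fun φ _ => h1 φ), Finset.sum_comm]
    have h2 : ∀ i : Fin s, (∑ φ : V →ₗ[F] F, ∑ j : Fin s,
        if φ (w i) = 0 ∧ φ (w j) = 0 then (1 : ℤ) else 0) =
        (Nat.card F : ℤ) ^ 2 + (s - 1) * (Nat.card F : ℤ) := by
      intro i
      rw [Finset.sum_comm]
      have h3 : ∀ j : Fin s, (∑ φ : V →ₗ[F] F,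
          if φ (w i) = 0 ∧ φ (w j) = 0 then (1 : ℤ) else 0) =
          (Nat.card F : ℤ) + if i = j then (Nat.card F : ℤ) ^ 2 - (Nat.card F : ℤ) else 0 := by
        intro j
        rw [Finset.sum_boole]
        by_cases hij : i = j
        · subst hij
          simp only [and_self, if_true]
          rw [card1 hV (hw i)]
          push_cast
          ring
        · rw [card2 hV (hind i j hij), if_neg hij]
          ring
      rw [Finset.sum_congr rfl (fun j _ => h3 j), Finset.sum_add_distrib, Finset.sum_const,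
        Finset.sum_ite_eq, if_pos (Finset.mem_univ _), Finset.card_univ, Fintype.card_fin,
        nsmul_eq_mul]
      ring
    rw [Finset.sum_congr rfl (fun i _ => h2 i), Finset.sum_const, Finset.card_univ,
      Fintype.card_fin, nsmul_eq_mul]
    ring
  have h1 : ∀ φ : V →ₗ[F] F, (nz w φ - c) ^ 2 =
      nz w φ * nz w φ - 2 * c * nz w φ + c ^ 2 := by
    intro φ
    ring
  rw [Finset.sum_congr rfl (fun φ _ => h1 φ), Finset.sum_add_distrib, Finset.sum_sub_distrib,
    hsum2, ← Finset.mul_sum, hsum1, Finset.sum_const, Finset.card_univ, nsmul_eq_mul, hcard0]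
  ring

open Classical in
theorem lower [Fintype (V →ₗ[F] F)] {s : ℕ} (hs : 2 ≤ s) (w : Fin s → V) {J : Type} [Fintype J]
    (r : J → Option (Fin s)) (hr : Function.Injective r) (G : J → (V →ₗ[F] F))
    (hG : ∀ o j, G o (w j) = 0 ↔ r o = some j) (c : ℤ) :
    (s - c) ^ 2 + ((Nat.card F : ℤ) - 1) * ∑ o : J, (if r o = none then c ^ 2 else (1 - c) ^ 2) ≤
      ∑ φ : V →ₗ[F] F, (nz w φ - c) ^ 2 := by
  have hFt : Fintype F := Fintype.ofFinite _
  let ι : J × Fˣ → (V →ₗ[F] F) := fun p => (p.2 : F) • G p.1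
  have hι : ∀ p j, ι p (w j) = 0 ↔ r p.1 = some j := by
    intro p j
    rw [← hG p.1 j]
    simp [ι]
  have hj0 : ∀ o : Option (Fin s), ∃ j, o ≠ some j := by
    intro o
    by_cases h0 : o = some ⟨0, by omega⟩
    · exact ⟨⟨1, by omega⟩, by rw [h0]; simp⟩
    · exact ⟨_, h0⟩
  have hinj : Function.Injective ι := by
    rintro ⟨o, c⟩ ⟨o', c'⟩ h
    have hoo : ∀ j, r o = some j ↔ r o' = some j := by
      intro j
      rw [← hι (o, c) j, ← hι (o', c') j, h]
    have ho : o = o' := by
      apply hr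
      ext j
      exact hoo j
    subst ho
    obtain ⟨j, hj⟩ := hj0 (r o)
    have h2 : (c : F) * G o (w j) = (c' : F) * G o (w j) := by
      have := LinearMap.congr_fun h (w j)
      simpa [ι] using this
    have h3 : G o (w j) ≠ 0 := fun h => hj ((hG o j).1 h)
    have h4 := mul_right_cancel₀ h3 h2
    rw [Units.ext h4]
  have hnz : (0 : V →ₗ[F] F) ∉ Finset.univ.image ι := by
    intro h
    obtain ⟨p, -, hp⟩ := Finset.mem_image.1 h
    obtain ⟨j, hj⟩ := hj0 (r p.1)
    apply hj
    rw [← hι p j, hp]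
    simp
  have hcu : (Fintype.card Fˣ : ℤ) = (Nat.card F : ℤ) - 1 := by
    have h1 : 0 < Fintype.card F := Fintype.card_pos
    rw [Fintype.card_units, ← Nat.card_eq_fintype_card, Nat.cast_sub (by
      rw [Nat.card_eq_fintype_card]
      exact h1)]
    push_cast
    ring
  have hval : ∀ p : J × Fˣ, (nz w (ι p) - c) ^ 2 = if r p.1 = none then c ^ 2 else (1 - c) ^ 2 := by
    intro p
    have h1 : nz w (ι p) = if r p.1 = none then 0 else 1 := by
      unfold nz
      simp only [hι]
      rcases hrp : r p.1 with _ | i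
      · simp
      · simp
    rw [h1]
    split_ifs <;> ring
  have h1 : ∑ φ ∈ insert 0 (Finset.univ.image ι), (nz w φ - c) ^ 2 ≤
      ∑ φ : V →ₗ[F] F, (nz w φ - c) ^ 2 := by
    apply Finset.sum_le_sum_of_subset_of_nonneg (Finset.subset_univ _)
    intro φ _ _
    positivity
  refine le_trans (le_of_eq ?_) h1
  rw [Finset.sum_insert hnz, Finset.sum_image (fun x _ y _ h => hinj h)]
  rw [Finset.sum_congr rfl (fun p _ => hval p)]
  have h0 : nz w (0 : V →ₗ[F] F) = s := by
    unfold nz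
    simp
  rw [h0, Fintype.sum_prod_type]
  have hin : ∀ x : J, (∑ y : Fˣ, if r (x, y).1 = none then c ^ 2 else (1 - c) ^ 2) =
      ((Nat.card F : ℤ) - 1) * (if r x = none then c ^ 2 else (1 - c) ^ 2) := by
    intro x
    have hy : ∀ y : Fˣ, (if r (x, y).1 = none then c ^ 2 else (1 - c) ^ 2) =
        (if r x = none then c ^ 2 else (1 - c) ^ 2) := fun _ => rfl
    rw [Finset.sum_congr rfl (fun y _ => hy y), Finset.sum_const, Finset.card_univ,
      nsmul_eq_mul, hcu]
  rw [Finset.sum_congr rfl (fun x _ => hin x), ← Finset.mul_sum]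

/-- no `m ^ 3 + 2` points with tangents in a plane of order `m ^ 2` -/
theorem count1 {m : ℕ} (hm : 2 ≤ m) (hF : Nat.card F = m ^ 2) (hV : finrank F V = 3)
    (w : Fin (m ^ 3 + 2) → V) (f : Fin (m ^ 3 + 2) → (V →ₗ[F] F))
    (hf0 : ∀ i, f i (w i) = 0) (hf : ∀ i j, i ≠ j → f i (w j) ≠ 0) : False := by
  classical
  have hfin : Finite (V →ₗ[F] F) := Module.finite_of_finite F
  have hft : Fintype (V →ₗ[F] F) := Fintype.ofFinite _
  have hw : ∀ i, w i ≠ 0 := by
    intro i h0
    obtain ⟨j, hj⟩ : ∃ j : Fin (m ^ 3 + 2), j ≠ i := exists_ne i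
    apply hf j i hj
    rw [h0, map_zero]
  have hind : ∀ i j, i ≠ j → LinearIndependent F ![w i, w j] := by
    intro i j hij
    rw [LinearIndependent.pair_iff' (hw i)]
    intro c hc
    apply hf i j hij
    rw [← hc, map_smul, hf0, smul_zero]
  have h1 := sum_sq hV w hw hind (m + 1)
  have h2 := lower (s := m ^ 3 + 2) (by omega) w some (Option.some_injective _) f (fun i j => by
    constructor
    · intro h
      by_contra hc
      exact hf i j (fun e => hc (by rw [e])) h
    · intro h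
      rw [Option.some_inj.1 h]
      exact hf0 j) (m + 1)
  rw [h1, hF] at h2
  simp only [reduceCtorEq, if_false, Finset.sum_const, Finset.card_univ, Fintype.card_fin,
    nsmul_eq_mul] at h2
  push_cast at h2
  have hm' : (2 : ℤ) ≤ m := by exact_mod_cast hm
  generalize (m : ℤ) = M at h2 hm'
  have e : ((M ^ 3 + 2) * (M ^ 2) ^ 2 + (M ^ 3 + 2) * (M ^ 3 + 2 - 1) * M ^ 2 -
      2 * (M + 1) * (M ^ 3 + 2) * (M ^ 2) ^ 2 + (M + 1) ^ 2 * (M ^ 2) ^ 3) -
      ((M ^ 3 + 2 - (M + 1)) ^ 2 + (M ^ 2 - 1) * ((M ^ 3 + 2) * (1 - (M + 1)) ^ 2)) =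
      -((M ^ 2 - 1) * (2 * M ^ 2 + 2 * M - 1)) := by ring
  have e2 : 0 < (M ^ 2 - 1) * (2 * M ^ 2 + 2 * M - 1) := by
    apply mul_pos <;> nlinarith
  linarith

/-- no `m ^ 3 + 1` points with tangents and a line missing them in a plane of order `m ^ 2` -/
theorem count2 {m : ℕ} (hm : 2 ≤ m) (hF : Nat.card F = m ^ 2) (hV : finrank F V = 3)
    (w : Fin (m ^ 3 + 1) → V) (f : Fin (m ^ 3 + 1) → (V →ₗ[F] F)) (g : V →ₗ[F] F)
    (hf0 : ∀ i, f i (w i) = 0) (hf : ∀ i j, i ≠ j → f i (w j) ≠ 0) (hg : ∀ j, g (w j) ≠ 0) :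
    False := by
  classical
  have hfin : Finite (V →ₗ[F] F) := Module.finite_of_finite F
  have hft : Fintype (V →ₗ[F] F) := Fintype.ofFinite _
  have hw : ∀ i, w i ≠ 0 := by
    intro i h0
    apply hg i
    rw [h0, map_zero]
  have hind : ∀ i j, i ≠ j → LinearIndependent F ![w i, w j] := by
    intro i j hij
    rw [LinearIndependent.pair_iff' (hw i)]
    intro c hc
    apply hf i j hij
    rw [← hc, map_smul, hf0, smul_zero]
  have hm3 : 2 ^ 3 ≤ m ^ 3 := Nat.pow_le_pow_left hm 3
  have h1 := sum_sq hV w hw hind (m + 1)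
  have h2 := lower (s := m ^ 3 + 1) (by omega) w (J := Option (Fin (m ^ 3 + 1))) id
    Function.injective_id (fun o => o.elim g f) (fun o j => by
      cases o with
      | none => simpa using hg j
      | some i =>
        constructor
        · intro h
          by_contra hc
          exact hf i j (fun e => hc (by rw [e]; rfl)) h
        · intro h
          have e : i = j := Option.some_inj.1 h
          rw [e]
          exact hf0 j) (m + 1)
  rw [h1, hF] at h2
  rw [Fintype.sum_option] at h2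
  simp only [id_eq, reduceCtorEq, if_false, if_true, Finset.sum_const, Finset.card_univ,
    Fintype.card_fin, nsmul_eq_mul] at h2
  push_cast at h2
  have hm' : (2 : ℤ) ≤ m := by exact_mod_cast hm
  generalize (m : ℤ) = M at h2 hm'
  have e : ((M ^ 3 + 1) * (M ^ 2) ^ 2 + (M ^ 3 + 1) * (M ^ 3 + 1 - 1) * M ^ 2 -
      2 * (M + 1) * (M ^ 3 + 1) * (M ^ 2) ^ 2 + (M + 1) ^ 2 * (M ^ 2) ^ 3) -
      ((M ^ 3 + 1 - (M + 1)) ^ 2 + (M ^ 2 - 1) * ((M + 1) ^ 2 +
        (M ^ 3 + 1) * (1 - (M + 1)) ^ 2)) = -((M ^ 2 - 1) * (M + 1) ^ 2) := by ring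
  have e2 : 0 < (M ^ 2 - 1) * (M + 1) ^ 2 := by
    apply mul_pos
    · nlinarith
    · positivity
  linarith

end

end Pool.Agent.Y391.TB
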