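import Pool.Agent.Y391.TB.Cnt
import Pool.Agent.Helper236.Size

/-!
Upper bounds: in a geometry without supersolvable tangential `1`-blocks as minors, of rank three,
every point lies on a tangent.
-/

set_option autoImplicit false

namespace Pool.Agent.Y391.TB

open Set Module Submodule Pool.Agent.Helper236 Pool.Agent.Helper236.Size

section

variable {F : Type} [Field F] {α : Type} {M : Matroid α}

theorem rk_empty (M : Matroid α) : rk M ∅ = 0 := by
  rw [rk, M.eRk_empty]
  rfl

theorem flat_empty (hs : IsSimple M) : M.IsFlat ∅ := by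
  rw [Matroid.isFlat_iff_closure_eq, Set.eq_empty_iff_forall_notMem]
  intro x hx
  have hxE : x ∈ M.E := M.closure_subset_ground _ hx
  exact (isSimple_nonloop hs x hxE).not_isLoop (Matroid.isLoop_iff.2 hx)

theorem modular_empty (hs : IsSimple M) : IsModularFlat M ∅ := by
  refine ⟨flat_empty hs, fun G' _ => ?_⟩
  rw [Set.empty_union, Set.empty_inter, rk_empty]
  omega

theorem modular_ground (M : Matroid α) : IsModularFlat M M.E := by
  refine ⟨M.ground_isFlat, fun G' hG' => ?_⟩
  rw [Set.union_eq_left.2 hG'.subset_ground, Set.inter_eq_right.2 hG'.subset_ground]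

theorem modular_single (hfin : M.Finite) {W : Type} [AddCommGroup W] [Module F W] {v : α → W}
    (h : Rep F M v) (hs : IsSimple M) {e : α} (he : e ∈ M.E) : IsModularFlat M {e} := by
  refine ⟨isFlat_singleton_of_simple h hs he, fun G' hG' => ?_⟩
  have h1 : rk M {e} = 1 := by
    rw [rk, (isSimple_nonloop hs e he).eRk_eq]
    rfl
  by_cases heG : e ∈ G'
  · rw [Set.union_eq_right.2 (by simpa using heG), Set.inter_eq_left.2 (by simpa using heG)]
    omega
  · have h2 : ({e} : Set α) ∩ G' = ∅ := by
      rw [Set.singleton_inter_eq_empty]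
      exact heG
    rw [h2, rk_empty, Set.singleton_union, h1]
    have h3 : M.eRk (insert e G') = M.eRk G' + 1 := by
      apply Matroid.eRk_insert_eq_add_one
      refine ⟨he, ?_⟩
      rw [hG'.closure]
      exact heG
    have h4 : M.eRk G' ≠ ⊤ := by
      have : M.RankFinite := inferInstance
      exact (M.isRkFinite_set G').eRk_lt_top.ne
    rw [rk, rk, h3]
    obtain ⟨k, hk⟩ := ENat.ne_top_iff_exists.1 h4
    rw [← hk]
    have : ((k : ℕ∞) + 1).toNat = k + 1 := by
      have e1 : ((k : ℕ∞) + 1) = ((k + 1 : ℕ) : ℕ∞) := by push_cast; rfl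
      rw [e1, ENat.toNat_coe]
    rw [this, ENat.toNat_coe]
    omega

/-- a geometry of rank at most two is supersolvable -/
theorem supersolvable_of_rank_le (hM : InL F M) (hr : rk M M.E ≤ 2) : IsSupersolvable M := by
  obtain ⟨hfin, hs, n, v, hv⟩ := hM
  have h : Rep F M v := hv
  have key : ∀ G : ℕ → Set α, (∀ i ≤ rk M M.E, IsModularFlat M (G i) ∧ rk M (G i) = i) →
      (∀ i < rk M M.E, G i ⊆ G (i + 1)) → IsSupersolvable M := fun G h1 h2 => ⟨G, h1, h2⟩
  by_cases hE : M.E.Nonempty
  · obtain ⟨e, he⟩ := hE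
    have h1 : rk M {e} = 1 := by
      rw [rk, (isSimple_nonloop hs e he).eRk_eq]
      rfl
    refine key (fun i => if i = rk M M.E then M.E else if i = 0 then ∅ else {e}) ?_ ?_
    · intro i hi
      by_cases h2 : i = rk M M.E
      · simp only [if_pos h2]
        exact ⟨modular_ground M, h2.symm⟩
      · simp only [if_neg h2]
        by_cases h3 : i = 0
        · simp only [if_pos h3]
          exact ⟨modular_empty hs, by rw [rk_empty, h3]⟩
        · simp only [if_neg h3]
          refine ⟨modular_single hfin h hs he, ?_⟩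
          rw [h1]
          omega
    · intro i hi
      have h2 : i ≠ rk M M.E := by omega
      simp only [if_neg h2]
      by_cases h3 : i = 0
      · simp only [if_pos h3]
        exact Set.empty_subset _
      · simp only [if_neg h3]
        have h4 : i + 1 = rk M M.E := by omega
        simp only [if_pos h4]
        simpa using he
  · rw [Set.not_nonempty_iff_eq_empty] at hE
    have h0 : rk M M.E = 0 := by rw [hE, rk_empty]
    refine key (fun _ => ∅) ?_ ?_
    · intro i hi
      have : i = 0 := by omega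
      subst this
      exact ⟨modular_empty hs, rk_empty M⟩
    · intro i _
      exact Set.Subset.rfl

/-- If all simple minors of rank at most two have critical exponent at most one, every point of a
geometry of rank three lies on a tangent. -/
theorem exists_tangent' [Finite F] {W : Type} [AddCommGroup W] [Module F W]
    [FiniteDimensional F W] {M : Matroid α} {v : α → W} (h : Rep F M v) (hfin : M.Finite)
    (hs : IsSimple M) (hr : rk M M.E = 3)
    (hcr : ∀ N : Matroid α, N.IsMinor M → InL F N → rk N N.E ≤ 2 →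
      critExp N (Nat.card F) ≤ (1 : ℕ)) {e : α} (he : e ∈ M.E) :
    ∃ f : W →ₗ[F] (Fin 1 → F), f (v e) = 0 ∧ ∀ x ∈ M.E, x ≠ e → f (v x) ≠ 0 := by
  classical
  set U := span F (v '' {e}) with hU
  set u : α → W ⧸ U := U.mkQ ∘ v with hu
  have hu0 : ∀ x ∈ M.E, x ≠ e → u x ≠ 0 := by
    intro x hx hxe h0
    have h1 : v x ∈ U := by simpa [hu] using h0
    rw [hU, image_singleton, mem_span_singleton] at h1
    obtain ⟨c, hc⟩ := h1
    exact hxe (h.eq_of_smul hs hx he hc.symm)
  -- representatives of the parallel classes of the contraction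
  have hchoose : ∀ P : Submodule F (W ⧸ U), ∃ t : α,
      (∃ x ∈ M.E, x ≠ e ∧ span F {u x} = P) → t ∈ M.E ∧ t ≠ e ∧ span F {u t} = P := by
    intro P
    by_cases hP : ∃ x ∈ M.E, x ≠ e ∧ span F {u x} = P
    · obtain ⟨x, hx⟩ := hP
      exact ⟨x, fun _ => hx⟩
    · exact ⟨e, fun h => absurd h hP⟩
  choose s hs' using hchoose
  set T : Set α := {x | x ∈ M.E ∧ x ≠ e ∧ s (span F {u x}) = x} with hT
  have hrep : ∀ x ∈ M.E, x ≠ e → s (span F {u x}) ∈ T ∧
      span F {u (s (span F {u x}))} = span F {u x} := by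
    intro x hx hxe
    obtain ⟨h1, h2, h3⟩ := hs' (span F {u x}) ⟨x, hx, hxe, rfl⟩
    refine ⟨⟨h1, h2, ?_⟩, h3⟩
    rw [h3]
  set D : Set α := M.E \ T with hD
  set N := (M.contract {e}).delete D with hN
  have hNE : N.E = T := by
    ext x
    constructor
    · rintro ⟨⟨hx1, hx2⟩, hx3⟩
      by_contra hxT
      exact hx3 ⟨hx1, hxT⟩
    · intro hx
      exact ⟨⟨hx.1, fun h => hx.2.1 h⟩, fun h => h.2 hx⟩
  have heE : ({e} : Set α) ⊆ M.E := by simpa using he
  have hNrep : Rep F N u := h.minor {e} D heE
  have hNfin : N.Finite := finite_minor hfin ⟨{e}, D, rfl⟩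
  have hNs : IsSimple N := by
    intro x hx y hy
    have hx' : x ∈ T := hNE ▸ hx
    have hy' : y ∈ T := hNE ▸ hy
    rw [hNrep _ (by
      intro z hz
      rcases hz with rfl | rfl <;> assumption)]
    by_cases hxy : x = y
    · subst hxy
      simpa using hu0 x hx'.1 hx'.2.1
    · rw [linearIndepOn_pair_iff _ hxy (hu0 x hx'.1 hx'.2.1)]
      intro c hc
      apply hxy
      have hc0 : c ≠ 0 := by
        rintro rfl
        rw [zero_smul] at hc
        exact hu0 y hy'.1 hy'.2.1 hc.symm
      have : span F {u x} = span F {u y} := by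
        rw [← hc]
        exact (span_singleton_smul_eq (IsUnit.mk0 c hc0) _).symm
      rw [← hx'.2.2, ← hy'.2.2, this]
  have hNr : rk N N.E ≤ 2 := by
    rw [hNrep.rk_eq Subset.rfl]
    -- the span of the image of the ground set in the quotient
    have h1 : span F (u '' N.E) ≤ (span F (v '' M.E)).map U.mkQ := by
      rw [span_le]
      rintro _ ⟨x, hx, rfl⟩
      have hx' : x ∈ T := hNE ▸ hx
      exact mem_map_of_mem (subset_span (mem_image_of_mem v hx'.1))
    refine (Submodule.finrank_mono h1).trans ?_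
    have hUle : U ≤ span F (v '' M.E) := span_mono (image_mono heE)
    have hU1 : finrank F U = 1 := by
      rw [hU, image_singleton]
      exact finrank_span_singleton (h.ne_zero hs he)
    have hr3 : finrank F (span F (v '' M.E)) = 3 := by
      rw [← hr, h.rk_eq Subset.rfl]
    -- rank and nullity
    have h2 := LinearMap.finrank_range_add_finrank_ker
      (U.mkQ.domRestrict (span F (v '' M.E)))
    rw [LinearMap.range_domRestrict, hr3] at h2
    have h3 : 1 ≤ finrank F (LinearMap.ker (U.mkQ.domRestrict (span F (v '' M.E)))) := by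
      have hx : (⟨v e, subset_span (mem_image_of_mem v he)⟩ : span F (v '' M.E)) ∈
          LinearMap.ker (U.mkQ.domRestrict (span F (v '' M.E))) := by
        rw [LinearMap.mem_ker, LinearMap.domRestrict_apply, mkQ_apply,
          Submodule.Quotient.mk_eq_zero]
        exact subset_span (mem_image_of_mem v rfl)
      rw [Nat.one_le_iff_ne_zero]
      intro h0
      have h4 := Submodule.finrank_eq_zero.1 h0
      rw [h4, Submodule.mem_bot] at hx
      exact h.ne_zero hs he (congrArg Subtype.val hx)
    omega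
  have hNL : InL F N := ⟨hNfin, hNs, representable_of_rep hNrep⟩
  have hle := hcr N ⟨{e}, D, rfl⟩ hNL hNr
  rw [minor_critExp_le_iff h 1 {e} D heE] at hle
  obtain ⟨f, hf1, hf2⟩ := hle
  refine ⟨f, hf1 e rfl, ?_⟩
  intro x hx hxe h0
  obtain ⟨h1, h2⟩ := hrep x hx hxe
  set t := s (span F {u x}) with ht
  have h3 : u t ∈ span F {u x} := by
    rw [← h2]
    exact mem_span_singleton_self _
  obtain ⟨c, hc⟩ := mem_span_singleton.1 h3
  have h4 : v t - c • v x ∈ U := by
    rw [← Submodule.ker_mkQ U, LinearMap.mem_ker, map_sub, map_smul]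
    rw [sub_eq_zero]
    exact hc.symm
  have h5 : f (v t - c • v x) = 0 := by
    have hle : U ≤ LinearMap.ker f := by
      rw [hU, span_le]
      rintro _ ⟨y, hy, rfl⟩
      exact hf1 y hy
    exact hle h4
  rw [map_sub, map_smul, h0, smul_zero, sub_zero] at h5
  have htN : t ∈ N.E := by
    rw [hNE]
    exact h1
  exact hf2 t htN h5

/-- the rank of a representable minor does not exceed the rank -/
theorem rk_minor_le {M N : Matroid α} (hM : InL F M) (hN : N.IsMinor M) :
    rk N N.E ≤ rk M M.E := by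
  obtain ⟨hfin, hs, n, v, hv⟩ := hM
  have h : Rep F M v := hv
  obtain ⟨C, D, hC, -, -, rfl⟩ := hN.exists_eq_contract_delete_disjoint
  have hNfin : ((M.contract C).delete D).Finite := finite_minor hfin ⟨C, D, rfl⟩
  rw [(h.minor C D hC).rk_eq Subset.rfl, h.rk_eq Subset.rfl]
  have h1 : span F (((span F (v '' C)).mkQ ∘ v) '' ((M.contract C).delete D).E) ≤
      (span F (v '' M.E)).map (span F (v '' C)).mkQ := by
    rw [span_le]
    rintro _ ⟨x, hx, rfl⟩
    exact mem_map_of_mem (subset_span (mem_image_of_mem v hx.1.1))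
  exact (Submodule.finrank_mono h1).trans (Submodule.finrank_map_le _ _)

/-- small minors of members of the class have critical exponent at most one -/
theorem crit_of_inExS {M N : Matroid α} (hM : InExS F 1 α M) (hN : N.IsMinor M) (hNL : InL F N)
    (hr : rk N N.E ≤ 2) : critExp N (Nat.card F) ≤ (1 : ℕ) := by
  by_contra hlt
  obtain ⟨N', hN', ht⟩ := exists_tangential (F := F) (k := 1) _ N hNL (not_le.1 hlt) rfl
  exact hM.2 N' (hN'.trans hN) ⟨ht, supersolvable_of_rank_le ht.1
    ((rk_minor_le hNL hN').trans hr)⟩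

theorem upper1 [Finite F] {m : ℕ} (hm : 2 ≤ m) (hF : Nat.card F = m ^ 2) {M : Matroid α}
    (hM : InExS F 1 α M) (hr : rk M M.E = 3) : M.E.ncard ≤ m ^ 3 + 1 := by
  by_contra hlt
  have hfin := hM.1.1
  obtain ⟨n, v, hv⟩ := hM.1.2.2
  have h : Rep F M v := hv
  have hft : Fintype M.E := M.ground_finite.fintype
  have hcard : Fintype.card (Fin (m ^ 3 + 2)) ≤ Fintype.card M.E := by
    rw [Fintype.card_fin, ← Nat.card_eq_fintype_card, Nat.card_coe_set_eq]
    omega
  obtain ⟨a⟩ := Function.Embedding.nonempty_of_card_le hcard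
  set V := span F (v '' M.E) with hV
  have hVr : finrank F V = 3 := by
    rw [← hr, h.rk_eq Subset.rfl]
  let w : Fin (m ^ 3 + 2) → V := fun i => ⟨v (a i), subset_span (mem_image_of_mem v (a i).2)⟩
  have hex : ∀ i : Fin (m ^ 3 + 2), ∃ f : (Fin n → F) →ₗ[F] (Fin 1 → F), f (v (a i)) = 0 ∧
      ∀ x ∈ M.E, x ≠ a i → f (v x) ≠ 0 := fun i =>
    exists_tangent' h hfin hM.1.2.1 hr (fun N hN hNL hNr => crit_of_inExS hM hN hNL hNr) (a i).2
  choose f hf0 hf using hex
  have hzero : ∀ y : Fin 1 → F, y 0 = 0 → y = 0 := by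
    intro y hy
    ext i
    rw [Subsingleton.elim i 0]
    exact hy
  refine count1 hm hF hVr w (fun i => ((LinearMap.proj 0).comp (f i)).comp V.subtype) ?_ ?_
  · intro i
    change f i (v (a i)) 0 = 0
    rw [hf0]
    rfl
  · intro i j hij h0
    refine hf i (a j) (a j).2 ?_ (hzero _ h0)
    intro heq
    exact hij (a.injective (Subtype.ext heq)).symm

theorem upper2 [Finite F] {m : ℕ} (hm : 2 ≤ m) (hF : Nat.card F = m ^ 2) {M : Matroid α}
    (hM : InM F 1 α M) (hr : rk M M.E = 3) : M.E.ncard ≤ m ^ 3 := by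
  by_contra hlt
  have hfin := hM.1.1
  obtain ⟨n, v, hv⟩ := hM.1.2.2
  have h : Rep F M v := hv
  have hft : Fintype M.E := M.ground_finite.fintype
  have hcard : Fintype.card (Fin (m ^ 3 + 1)) ≤ Fintype.card M.E := by
    rw [Fintype.card_fin, ← Nat.card_eq_fintype_card, Nat.card_coe_set_eq]
    omega
  obtain ⟨a⟩ := Function.Embedding.nonempty_of_card_le hcard
  set V := span F (v '' M.E) with hV
  have hVr : finrank F V = 3 := by
    rw [← hr, h.rk_eq Subset.rfl]
  let w : Fin (m ^ 3 + 1) → V := fun i => ⟨v (a i), subset_span (mem_image_of_mem v (a i).2)⟩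
  have hex : ∀ i : Fin (m ^ 3 + 1), ∃ f : (Fin n → F) →ₗ[F] (Fin 1 → F), f (v (a i)) = 0 ∧
      ∀ x ∈ M.E, x ≠ a i → f (v x) ≠ 0 := fun i => exists_tangent h hM (a i).2
  choose f hf0 hf using hex
  obtain ⟨g, hg⟩ := (critExp_le_iff h 1).1
    (critExp_le_of_inM hM Matroid.IsMinor.refl hM.1.2.1)
  have hzero : ∀ y : Fin 1 → F, y 0 = 0 → y = 0 := by
    intro y hy
    ext i
    rw [Subsingleton.elim i 0]
    exact hy
  refine count2 hm hF hVr w (fun i => ((LinearMap.proj 0).comp (f i)).comp V.subtype)
    (((LinearMap.proj 0).comp g).comp V.subtype) ?_ ?_ ?_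
  · intro i
    change f i (v (a i)) 0 = 0
    rw [hf0]
    rfl
  · intro i j hij h0
    refine hf i (a j) (a j).2 ?_ (hzero _ h0)
    intro heq
    exact hij (a.injective (Subtype.ext heq)).symm
  · intro j h0
    exact hg (a j) (a j).2 (hzero _ h0)

end

end Pool.Agent.Y391.TB
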