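import Pool.Agent.Y391.TB.Uni
import Pool.Agent.Y391.TB.Upper

/-!
The values of the two size functions at rank three for a field of square order.
-/

set_option autoImplicit false

namespace Pool.Agent.Y391.TB

open Set Module Submodule Pool.Agent.Helper236 Pool.Agent.Helper236.Size

section

variable {F : Type} [Field F] [Finite F] {m : ℕ}

theorem del_rep : Rep F ((umat F m).delete {pinf}) uv := by
  intro I hI
  rw [Matroid.delete_indep_iff, umat_rep _ (subset_univ _), and_iff_left]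
  rw [Set.disjoint_left]
  intro x hx hx'
  exact (hI hx).2 hx'

theorem del_finite : ((umat F m).delete {pinf}).Finite := ⟨Set.toFinite _⟩

theorem del_minor : ((umat F m).delete {pinf}).IsMinor (umat F m) := by
  refine ⟨∅, {pinf}, ?_⟩
  rw [Matroid.contract_empty]

theorem del_simple (hm : 2 ≤ m) (hF : Nat.card F = m ^ 2) :
    IsSimple ((umat F m).delete {pinf}) := by
  intro e he f hf
  rw [Matroid.delete_indep_iff]
  refine ⟨umat_simple hm hF e he.1 f hf.1, ?_⟩
  rw [Set.disjoint_left]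
  intro x hx hx'
  rcases hx with rfl | rfl
  · exact he.2 hx'
  · exact hf.2 hx'

theorem del_inL (hm : 2 ≤ m) (hF : Nat.card F = m ^ 2) : InL F ((umat F m).delete {pinf}) :=
  ⟨del_finite, del_simple hm hF, ⟨3, _, del_rep⟩⟩

theorem del_inM (hm : 2 ≤ m) (hF : Nat.card F = m ^ 2) :
    InM F 1 _ ((umat F m).delete {pinf}) := by
  refine ⟨del_inL hm hF, ?_⟩
  intro N hN ht
  have hne : N ≠ umat F m := by
    intro h
    have h1 : (pinf : UP F m) ∈ N.E := by
      rw [h]
      exact mem_univ _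
    exact (hN.subset h1).2 rfl
  exact absurd (umat_minor hm hF (hN.trans del_minor) hne (isSimple_nonloop ht.1.2.1))
    (not_le.2 ht.2.1)

theorem del_rank (hm : 2 ≤ m) (hF : Nat.card F = m ^ 2) :
    rk ((umat F m).delete {pinf}) ((umat F m).delete {pinf}).E = 3 := by
  classical
  have hFt : Fintype F := Fintype.ofFinite _
  have hfin := del_finite (F := F) (m := m)
  have hinf : ∀ (x y : F) (h : y + y ^ m = x ^ (m + 1)), paff x y h ≠ (pinf : UP F m) := by
    intro x y h h'
    have := congrArg Subtype.val h'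
    simp [paff, pinf] at this
  apply le_antisymm
  · rw [del_rep.rk_eq Subset.rfl]
    refine (Submodule.finrank_le _).trans ?_
    rw [Module.finrank_fin_fun]
  have h00 : (0 : F) + 0 ^ m = 0 ^ (m + 1) := by
    rw [conj_zero hm, zero_pow (by omega), add_zero]
  obtain ⟨y, hy⟩ : ∃ y : F, y + y ^ m = 1 ^ (m + 1) := by
    have h1 := card_TF hm hF (norm_mem hF (1 : F))
    have h2 : (TF m ((1 : F) ^ (m + 1))).Nonempty := by
      rw [← Finset.card_pos, h1]
      omega
    obtain ⟨y, hy⟩ := h2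
    simp only [TF, Finset.mem_filter, Finset.mem_univ, true_and] at hy
    exact ⟨y, hy⟩
  obtain ⟨z, hz0, hz⟩ : ∃ z : F, z ≠ 0 ∧ z + z ^ m = 0 ^ (m + 1) := by
    have h1 := card_TF hm hF (norm_mem hF (0 : F))
    have h2 : ((TF m ((0 : F) ^ (m + 1))).erase 0).Nonempty := by
      rw [← Finset.card_pos, Finset.card_erase_of_mem, h1]
      · omega
      · simp only [TF, Finset.mem_filter, Finset.mem_univ, true_and]
        exact h00
    obtain ⟨z, hz⟩ := h2
    rw [Finset.mem_erase] at hz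
    refine ⟨z, hz.1, ?_⟩
    have := hz.2
    simp only [TF, Finset.mem_filter, Finset.mem_univ, true_and] at this
    exact this
  have h : LinearIndependent F ![uv (paff 0 z hz), uv (paff 0 0 h00), uv (paff 1 y hy)] := by
    rw [Fintype.linearIndependent_iff]
    intro g hg
    rw [Fin.sum_univ_three] at hg
    have e0 := congrFun hg 0
    have e1 := congrFun hg 1
    have e2 := congrFun hg 2
    simp [uv_aff] at e0 e1 e2
    rw [e0] at e1 e2
    have e3 : g 0 = 0 := by
      rw [zero_mul, add_zero] at e1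
      rcases mul_eq_zero.1 e1 with h | h
      · exact h
      · exact absurd h hz0
    rw [e3] at e2
    simp at e2
    intro i
    fin_cases i
    · exact e3
    · exact e2
    · exact e0
  rw [del_rep.rk_eq Subset.rfl]
  have h1 := finrank_span_eq_card h
  have h2 : finrank F (span F (range ![uv (paff 0 z hz), uv (paff 0 0 h00),
      uv (paff 1 y hy)])) = 3 := by
    rw [h1]
    simp
  refine h2.symm.le.trans ?_
  apply Submodule.finrank_mono
  apply span_mono
  rintro _ ⟨x, rfl⟩
  fin_cases x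
  · exact ⟨paff 0 z hz, ⟨mem_univ _, hinf _ _ _⟩, rfl⟩
  · exact ⟨paff 0 0 h00, ⟨mem_univ _, hinf _ _ _⟩, rfl⟩
  · exact ⟨paff 1 y hy, ⟨mem_univ _, hinf _ _ _⟩, rfl⟩

theorem two_le (hF : Nat.card F = m ^ 2) : 2 ≤ m := by
  have h1 : 1 < Nat.card F := Finite.one_lt_card
  rw [hF] at h1
  by_contra hc
  have : m = 0 ∨ m = 1 := by omega
  rcases this with rfl | rfl <;> simp at h1

theorem sizeFn_M (hF : Nat.card F = m ^ 2) : sizeFn (InM F 1) 3 = m ^ 3 := by
  have hm := two_le hF
  have hub : ∀ k ∈ {k : ℕ | ∃ (α : Type) (M : Matroid α), InM F 1 α M ∧ rk M M.E = 3 ∧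
      M.E.ncard = k}, k ≤ m ^ 3 := by
    rintro k ⟨α, M, hM, hr, rfl⟩
    exact upper2 hm hF hM hr
  have hmem : m ^ 3 ∈ {k : ℕ | ∃ (α : Type) (M : Matroid α), InM F 1 α M ∧ rk M M.E = 3 ∧
      M.E.ncard = k} := by
    refine ⟨UP F m, (umat F m).delete {pinf}, del_inM hm hF, del_rank hm hF, ?_⟩
    show ((univ : Set (UP F m)) \ {pinf}).ncard = m ^ 3
    rw [Set.ncard_sdiff_singleton_of_mem (mem_univ _), Set.ncard_univ, card_UP hm hF,
      Nat.add_sub_cancel]
  exact le_antisymm (csSup_le ⟨_, hmem⟩ hub) (le_csSup ⟨_, hub⟩ hmem)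

theorem sizeFn_ExS (hF : Nat.card F = m ^ 2) : sizeFn (InExS F 1) 3 = m ^ 3 + 1 := by
  have hm := two_le hF
  have hub : ∀ k ∈ {k : ℕ | ∃ (α : Type) (M : Matroid α), InExS F 1 α M ∧ rk M M.E = 3 ∧
      M.E.ncard = k}, k ≤ m ^ 3 + 1 := by
    rintro k ⟨α, M, hM, hr, rfl⟩
    exact upper1 hm hF hM hr
  have hmem : m ^ 3 + 1 ∈ {k : ℕ | ∃ (α : Type) (M : Matroid α), InExS F 1 α M ∧
      rk M M.E = 3 ∧ M.E.ncard = k} := by
    refine ⟨UP F m, umat F m, umat_inExS hm hF, umat_rank hm hF, ?_⟩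
    show (univ : Set (UP F m)).ncard = m ^ 3 + 1
    rw [Set.ncard_univ, card_UP hm hF]
  exact le_antisymm (csSup_le ⟨_, hmem⟩ hub) (le_csSup ⟨_, hub⟩ hmem)

/-- the unital is a tangential block which is not supersolvable -/
theorem umat_tangential (hF : Nat.card F = m ^ 2) :
    IsTangentialBlock F 1 (umat F m) ∧ ¬ IsSupersolvable (umat F m) := by
  have hm := two_le hF
  refine ⟨⟨umat_inL hm hF, umat_critExp hm hF, fun N hN hne hs =>
    umat_minor hm hF hN hne (isSimple_nonloop hs)⟩, ?_⟩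
  rintro ⟨G, hG, -⟩
  have hr := umat_rank hm hF
  obtain ⟨h1, h2⟩ := hG 2 (by omega)
  exact umat_not_modular hm hF ⟨G 2, h1, by omega⟩

end

end Pool.Agent.Y391.TB
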