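import Pool.Agent.Helper236.Size

/-!
The Hermitian unital in the projective plane over a finite field with `m ^ 2` elements.
-/

set_option autoImplicit false

namespace Pool.Agent.Y391.TB

open Set Module Submodule Pool.Agent.Helper236 Pool.Agent.Helper236.Size

section

variable {F : Type} [Field F] [Finite F] {m : ℕ}

theorem conj_add (hF : Nat.card F = m ^ 2) (x y : F) :
    (x + y) ^ m = x ^ m + y ^ m := by
  have hFt : Fintype F := Fintype.ofFinite _
  obtain ⟨p, hp⟩ := CharP.exists F
  obtain ⟨n, hpp, hn⟩ := FiniteField.card F p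
  haveI : Fact p.Prime := ⟨hpp⟩
  rw [← Nat.card_eq_fintype_card, hF] at hn
  have hd : m ∣ p ^ (n : ℕ) := by
    rw [← hn]
    exact Dvd.intro_left (m ^ 1) (by ring)
  obtain ⟨k, -, hk⟩ := (Nat.dvd_prime_pow hpp).1 hd
  rw [hk]
  exact add_pow_char_pow ..

theorem conj_conj (hF : Nat.card F = m ^ 2) (x : F) : (x ^ m) ^ m = x := by
  have hFt : Fintype F := Fintype.ofFinite _
  rw [← pow_mul, ← sq, ← hF, Nat.card_eq_fintype_card]
  exact FiniteField.pow_card x

theorem conj_sub (hF : Nat.card F = m ^ 2) (x y : F) : (x - y) ^ m = x ^ m - y ^ m := by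
  have h := conj_add hF (x - y) y
  rw [sub_add_cancel] at h
  rw [h, add_sub_cancel_right]

theorem conj_zero (hm : 2 ≤ m) : (0 : F) ^ m = 0 := zero_pow (by omega)

theorem conj_neg (hm : 2 ≤ m) (hF : Nat.card F = m ^ 2) (x : F) : (-x) ^ m = -x ^ m := by
  have h := conj_sub hF 0 x
  rw [zero_sub, conj_zero hm, zero_sub] at h
  exact h

open Classical Polynomial in
theorem card_zeros [Fintype F] {P : F[X]} (hP : P ≠ 0) :
    (Finset.univ.filter (fun x => P.eval x = 0)).card ≤ P.natDegree := by
  apply Polynomial.card_le_degree_of_subset_roots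
  intro x hx
  rw [Polynomial.mem_roots hP]
  simpa using hx

open Classical in
/-- the subfield -/
noncomputable def KK (F : Type) [Field F] [Fintype F] (m : ℕ) : Finset F :=
  Finset.univ.filter (fun x => x ^ m = x)

open Classical Polynomial in
theorem card_KK [Fintype F] (hm : 2 ≤ m) : (KK F m).card ≤ m := by
  have hd : (X ^ m - X : F[X]).natDegree = m := by
    rw [natDegree_sub_eq_left_of_natDegree_lt] <;> simp
    omega
  have hP : (X ^ m - X : F[X]) ≠ 0 := by
    intro h
    rw [h, natDegree_zero] at hd
    omega
  have h := card_zeros hP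
  rw [hd] at h
  refine le_trans (Finset.card_le_card ?_) h
  intro x hx
  have hx' : x ^ m = x := by simpa [KK] using hx
  simp [hx']

open Classical in
/-- fibre of the trace -/
noncomputable def TF [Fintype F] (m : ℕ) (κ : F) : Finset F :=
  Finset.univ.filter (fun y => y + y ^ m = κ)

open Classical Polynomial in
theorem card_TF_le [Fintype F] (hm : 2 ≤ m) (κ : F) : (TF m κ).card ≤ m := by
  have hd : (X ^ m + (X - C κ) : F[X]).natDegree = m := by
    rw [natDegree_add_eq_left_of_natDegree_lt]
    · simp
    · rw [natDegree_X_sub_C, natDegree_X_pow]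
      omega
  have hP : (X ^ m + (X - C κ) : F[X]) ≠ 0 := by
    intro h
    rw [h, natDegree_zero] at hd
    omega
  have h := card_zeros hP
  rw [hd] at h
  refine le_trans (Finset.card_le_card ?_) h
  intro y hy
  have hy' : y + y ^ m = κ := by simpa [TF] using hy
  simp only [Finset.mem_filter, Finset.mem_univ, true_and, eval_add, eval_pow, eval_X, eval_sub,
    eval_C]
  rw [← hy']
  ring

theorem trace_mem [Fintype F] (hF : Nat.card F = m ^ 2) (y : F) : y + y ^ m ∈ KK F m := by
  classical
  simp only [KK, Finset.mem_filter, Finset.mem_univ, true_and]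
  rw [conj_add hF, conj_conj hF, add_comm]

theorem norm_mem [Fintype F] (hF : Nat.card F = m ^ 2) (z : F) : z ^ (m + 1) ∈ KK F m := by
  classical
  simp only [KK, Finset.mem_filter, Finset.mem_univ, true_and]
  rw [pow_succ, mul_pow, conj_conj hF, mul_comm]

theorem card_TF [Fintype F] (hm : 2 ≤ m) (hF : Nat.card F = m ^ 2) {κ : F} (hκ : κ ∈ KK F m) :
    (TF m κ).card = m := by
  classical
  have h1 : ∑ κ ∈ KK F m, (TF m κ).card = m ^ 2 := by
    rw [← hF, Nat.card_eq_fintype_card, ← Finset.card_univ]
    symm
    apply Finset.card_eq_sum_card_fiberwise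
    intro y _
    exact trace_mem hF y
  have h2 : ∑ κ ∈ KK F m, (m - (TF m κ).card) = 0 := by
    have h3 : ∑ κ ∈ KK F m, (m - (TF m κ).card) + ∑ κ ∈ KK F m, (TF m κ).card =
        (KK F m).card * m := by
      rw [← Finset.sum_add_distrib, ← smul_eq_mul, ← Finset.sum_const]
      refine Finset.sum_congr rfl fun κ _ => ?_
      have := card_TF_le hm κ
      omega
    have h4 : (KK F m).card * m ≤ m * m := Nat.mul_le_mul_right _ (card_KK hm)
    rw [h1, sq] at h3
    generalize (KK F m).card * m = A at h3 h4
    generalize m * m = B at h3 h4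
    omega
  have h3 := (Finset.sum_eq_zero_iff.1 h2) κ hκ
  have := card_TF_le hm κ
  omega

open Classical in
/-- fibre of the norm -/
noncomputable def NF [Fintype F] (m : ℕ) (κ : F) : Finset F :=
  Finset.univ.filter (fun z => z ^ (m + 1) = κ)

open Classical Polynomial in
theorem card_NF_le [Fintype F] (κ : F) : (NF m κ).card ≤ m + 1 := by
  have hd : (X ^ (m + 1) - C κ : F[X]).natDegree = m + 1 := natDegree_X_pow_sub_C
  have hP : (X ^ (m + 1) - C κ : F[X]) ≠ 0 := by
    intro h
    rw [h, natDegree_zero] at hd
    omega
  have h := card_zeros hP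
  rw [hd] at h
  refine le_trans (Finset.card_le_card ?_) h
  intro y hy
  have hy' : y ^ (m + 1) = κ := by simpa [NF] using hy
  simp [hy']

theorem norm_surj [Fintype F] (hm : 2 ≤ m) (hF : Nat.card F = m ^ 2) {κ : F}
    (hκ : κ ∈ KK F m) : ∃ z : F, z ^ (m + 1) = κ := by
  classical
  by_cases hκ0 : κ = 0
  · exact ⟨0, by rw [hκ0, zero_pow (by omega)]⟩
  by_contra hcon
  push Not at hcon
  have h0 : (0 : F) ∈ KK F m := by
    simp only [KK, Finset.mem_filter, Finset.mem_univ, true_and]
    exact conj_zero hm
  have h1 : ∑ lam ∈ ((KK F m).erase 0).erase κ, (NF m lam).card = m ^ 2 - 1 := by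
    have e : (Finset.univ.erase (0 : F)).card = m ^ 2 - 1 := by
      rw [Finset.card_erase_of_mem (Finset.mem_univ _), Finset.card_univ,
        ← Nat.card_eq_fintype_card, hF]
    rw [← e]
    symm
    have h2 := Finset.card_eq_sum_card_fiberwise (s := Finset.univ.erase (0 : F))
      (t := ((KK F m).erase 0).erase κ) (f := fun z => z ^ (m + 1)) (by
        intro z hz
        have hz0 : z ≠ 0 := by simpa using hz
        simp only [Finset.coe_erase, Set.mem_sdiff, Finset.mem_coe, Set.mem_singleton_iff]
        exact ⟨⟨norm_mem hF z, pow_ne_zero _ hz0⟩, hcon z⟩)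
    rw [h2]
    refine Finset.sum_congr rfl fun lam hl => ?_
    have hl0 : lam ≠ 0 := by
      have := (Finset.mem_erase.1 hl).2
      exact (Finset.mem_erase.1 this).1
    congr 1
    ext z
    simp only [NF, Finset.mem_filter, Finset.mem_erase, Finset.mem_univ, and_true, true_and]
    constructor
    · rintro ⟨_, h⟩
      exact h
    · intro h
      refine ⟨?_, h⟩
      rintro rfl
      rw [zero_pow (by omega)] at h
      exact hl0 h.symm
  have h2 : (((KK F m).erase 0).erase κ).card ≤ m - 2 := by
    rw [Finset.card_erase_of_mem (Finset.mem_erase.2 ⟨hκ0, hκ⟩), Finset.card_erase_of_mem h0]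
    have := card_KK (F := F) hm
    omega
  have h3 : ∑ lam ∈ ((KK F m).erase 0).erase κ, (NF m lam).card ≤
      (((KK F m).erase 0).erase κ).card * (m + 1) := by
    rw [← smul_eq_mul, ← Finset.sum_const]
    exact Finset.sum_le_sum fun x _ => card_NF_le x
  have h4 : (((KK F m).erase 0).erase κ).card * (m + 1) ≤ (m - 2) * (m + 1) :=
    Nat.mul_le_mul_right _ h2
  rw [h1] at h3
  have h5 : m ^ 2 - 1 ≤ (m - 2) * (m + 1) := h3.trans h4
  obtain ⟨k, rfl⟩ : ∃ k, m = k + 2 := ⟨m - 2, by omega⟩
  have h6 : (k + 2) ^ 2 - 1 = k * (k + 2 + 1) + (k + 3) := by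
    have : (k + 2) ^ 2 = k * (k + 2 + 1) + (k + 3) + 1 := by ring
    omega
  rw [h6, Nat.add_sub_cancel] at h5
  omega

end

/-! ### The points -/

section

variable (F : Type) [Field F] (m : ℕ)

/-- the points of the unital: the point at infinity and the points `(x, y, 1)` with
`y + y ^ m = x ^ (m + 1)` -/
def UP : Type := {p : Option (F × F) // ∀ q, p = some q → q.2 + q.2 ^ m = q.1 ^ (m + 1)}

variable {F m}

/-- the vector of a point -/
def uv : UP F m → (Fin 3 → F)
  | ⟨none, _⟩ => ![0, 1, 0]
  | ⟨some q, _⟩ => ![q.1, q.2, 1]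

/-- the point at infinity -/
def pinf : UP F m := ⟨none, fun _ h => by simp at h⟩

/-- affine points -/
def paff (x y : F) (h : y + y ^ m = x ^ (m + 1)) : UP F m :=
  ⟨some (x, y), fun q hq => by
    rw [← Option.some_inj.1 hq]
    exact h⟩

theorem uv_inf : uv (pinf : UP F m) = ![0, 1, 0] := rfl

theorem uv_aff (x y : F) (h : y + y ^ m = x ^ (m + 1)) : uv (paff x y h) = ![x, y, 1] := rfl

theorem UP_cases (p : UP F m) : p = pinf ∨ ∃ x y h, p = paff x y h := by
  rcases p with ⟨_ | ⟨x, y⟩, hp⟩
  · exact Or.inl rfl
  · exact Or.inr ⟨x, y, hp (x, y) rfl, rfl⟩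

theorem ev_inf (a b c : F) : ev3 a b c (uv (pinf : UP F m)) = b := by
  simp [ev3, uv_inf]

theorem ev_aff (a b c x y : F) (h : y + y ^ m = x ^ (m + 1)) :
    ev3 a b c (uv (paff x y h)) = a * x + b * y + c := by
  simp [ev3, uv_aff]

instance [Finite F] : Finite (UP F m) := Subtype.finite

theorem card_UP [Finite F] (hm : 2 ≤ m) (hF : Nat.card F = m ^ 2) :
    Nat.card (UP F m) = m ^ 3 + 1 := by
  classical
  have hFt : Fintype F := Fintype.ofFinite _
  have e : UP F m ≃ Option ((x : F) × {y : F // y ∈ TF m (x ^ (m + 1))}) :=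
    { toFun := fun p => match p with
        | ⟨none, _⟩ => none
        | ⟨some q, h⟩ => some ⟨q.1, q.2, by
            simp only [TF, Finset.mem_filter, Finset.mem_univ, true_and]
            exact h q rfl⟩
      invFun := fun o => match o with
        | none => pinf
        | some ⟨x, y, hy⟩ => paff x y (by
            simpa only [TF, Finset.mem_filter, Finset.mem_univ, true_and] using hy)
      left_inv := by
        rintro ⟨_ | ⟨x, y⟩, hp⟩ <;> rfl
      right_inv := by
        rintro (_ | ⟨x, y, hy⟩) <;> rfl }
  rw [Nat.card_congr e, Finite.card_option, Nat.card_sigma]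
  have h1 : ∀ x : F, Nat.card {y : F // y ∈ TF m (x ^ (m + 1))} = m := by
    intro x
    rw [Nat.card_eq_fintype_card, Fintype.card_coe, card_TF hm hF (norm_mem hF x)]
  rw [Finset.sum_congr rfl (fun x _ => h1 x), Finset.sum_const, Finset.card_univ,
    ← Nat.card_eq_fintype_card, hF, smul_eq_mul]
  ring

/-- tangents -/
theorem tangent [Finite F] (hm : 2 ≤ m) (hF : Nat.card F = m ^ 2) (p : UP F m) :
    ∃ a b c : F, ev3 a b c (uv p) = 0 ∧ ∀ q, q ≠ p → ev3 a b c (uv q) ≠ 0 := by
  rcases UP_cases p with rfl | ⟨a, b, hab, rfl⟩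
  · refine ⟨0, 0, 1, ?_, ?_⟩
    · rw [ev_inf]
    · intro q hq
      rcases UP_cases q with rfl | ⟨x, y, hxy, rfl⟩
      · exact absurd rfl hq
      · rw [ev_aff]
        simp
  · refine ⟨-a ^ m, 1, b ^ m, ?_, ?_⟩
    · rw [ev_aff]
      have : a ^ (m + 1) = a ^ m * a := pow_succ _ _
      rw [this] at hab
      linear_combination hab
    · intro q hq
      rcases UP_cases q with rfl | ⟨x, y, hxy, rfl⟩
      · rw [ev_inf]
        exact one_ne_zero
      · rw [ev_aff]
        intro h0
        apply hq
        have hy : y = a ^ m * x - b ^ m := by linear_combination h0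
        have hym : y ^ m = a * x ^ m - b := by
          rw [hy, conj_sub hF, mul_pow, conj_conj hF, conj_conj hF]
        have e1 : x ^ (m + 1) = x ^ m * x := pow_succ _ _
        have e2 : a ^ (m + 1) = a ^ m * a := pow_succ _ _
        have e3 : (x - a) ^ (m + 1) = 0 := by
          rw [pow_succ, conj_sub hF]
          rw [hym] at hxy
          rw [hy] at hxy
          rw [e1] at hxy
          rw [e2] at hab
          linear_combination -hxy - hab
        have hxa : x = a := by
          rw [pow_eq_zero_iff (by omega), sub_eq_zero] at e3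
          exact e3
        subst hxa
        have hyb : y = b := by
          rw [hy]
          rw [e2] at hab
          linear_combination -hab
        subst hyb
        rfl

/-- every line meets the unital -/
theorem block [Finite F] (hm : 2 ≤ m) (hF : Nat.card F = m ^ 2) (a b c : F) :
    ∃ p : UP F m, ev3 a b c (uv p) = 0 := by
  classical
  have hFt : Fintype F := Fintype.ofFinite _
  by_cases hb : b = 0
  · exact ⟨pinf, by rw [ev_inf, hb]⟩
  set A := a / b with hA
  set C := c / b with hC
  have hK : A ^ (m + 1) - (C + C ^ m) ∈ KK F m := by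
    have h1 := norm_mem hF A
    have h2 := trace_mem hF C
    simp only [KK, Finset.mem_filter, Finset.mem_univ, true_and] at h1 h2 ⊢
    rw [conj_sub hF, h1, h2]
  obtain ⟨z, hz⟩ := norm_surj hm hF hK
  set x := z - A ^ m with hx
  set y := -(A * x) - C with hy
  have hxm : x ^ m = z ^ m - A := by
    rw [hx, conj_sub hF, conj_conj hF]
  have hym : y ^ m = -(A ^ m * x ^ m) - C ^ m := by
    rw [hy, conj_sub hF, conj_neg hm hF, mul_pow]
  have hxy : y + y ^ m = x ^ (m + 1) := by
    have e1 : z ^ (m + 1) = z ^ m * z := pow_succ _ _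
    have e2 : A ^ (m + 1) = A ^ m * A := pow_succ _ _
    have e3 : x ^ (m + 1) = x ^ m * x := pow_succ _ _
    rw [e3, hym, hxm, hy, hx]
    rw [e1, e2] at hz
    linear_combination -hz
  refine ⟨paff x y hxy, ?_⟩
  rw [ev_aff]
  have e1 : a = A * b := by rw [hA]; field_simp
  have e2 : c = C * b := by rw [hC]; field_simp
  rw [e1, e2, hy]
  ring

open Classical Polynomial in
/-- a line has at most `m + 1` points of the unital -/
theorem line_card [Finite F] (hm : 2 ≤ m) (hF : Nat.card F = m ^ 2) [Fintype (UP F m)]
    (a b c : F) (habc : a ≠ 0 ∨ b ≠ 0 ∨ c ≠ 0) :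
    (Finset.univ.filter (fun p : UP F m => ev3 a b c (uv p) = 0)).card ≤ m + 1 := by
  have hFt : Fintype F := Fintype.ofFinite _
  by_cases hb : b = 0
  · subst hb
    by_cases ha : a = 0
    · subst ha
      have hc : c ≠ 0 := by
        rcases habc with h | h | h
        · exact absurd rfl h
        · exact absurd rfl h
        · exact h
      have : (Finset.univ.filter (fun p : UP F m => ev3 0 0 c (uv p) = 0)) ⊆ {pinf} := by
        intro p hp
        rw [Finset.mem_singleton]
        rcases UP_cases p with rfl | ⟨x, y, hxy, rfl⟩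
        · rfl
        · simp only [Finset.mem_filter, Finset.mem_univ, true_and] at hp
          rw [ev_aff] at hp
          simp [hc] at hp
      refine (Finset.card_le_card this).trans ?_
      simp
    · -- the vertical lines
      have hsub : (Finset.univ.filter (fun p : UP F m => ev3 a 0 c (uv p) = 0)) ⊆
          insert pinf ((TF m ((-c / a) ^ (m + 1))).attach.image (fun y =>
            paff (-c / a) y.1 (by
              have := y.2
              simpa only [TF, Finset.mem_filter, Finset.mem_univ, true_and] using this))) := by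
        intro p hp
        rw [Finset.mem_insert]
        rcases UP_cases p with rfl | ⟨x, y, hxy, rfl⟩
        · exact Or.inl rfl
        · right
          simp only [Finset.mem_filter, Finset.mem_univ, true_and] at hp
          rw [ev_aff] at hp
          have hx : x = -c / a := by
            field_simp
            linear_combination hp
          subst hx
          rw [Finset.mem_image]
          refine ⟨⟨y, ?_⟩, Finset.mem_attach _ _, rfl⟩
          simp only [TF, Finset.mem_filter, Finset.mem_univ, true_and]
          exact hxy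
      refine (Finset.card_le_card hsub).trans ((Finset.card_insert_le _ _).trans ?_)
      have h1 := Finset.card_image_le (s := (TF m ((-c / a) ^ (m + 1))).attach) (f := fun y =>
            (paff (-c / a) y.1 (by
              have := y.2
              simpa only [TF, Finset.mem_filter, Finset.mem_univ, true_and] using this) : UP F m))
      rw [Finset.card_attach] at h1
      have h2 := card_TF_le hm ((-c / a) ^ (m + 1))
      omega
  · set A := a / b with hA
    set C' := c / b with hC
    let P : F[X] := X ^ (m + 1) + (C (A ^ m) * X ^ m + (C A * X + C (C' + C' ^ m)))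
    have hd0 : (C (A ^ m) * X ^ m + (C A * X + C (C' + C' ^ m)) : F[X]).natDegree ≤ m := by
      refine (natDegree_add_le _ _).trans (max_le (natDegree_C_mul_X_pow_le _ _) ?_)
      refine (natDegree_add_le _ _).trans (max_le ?_ ?_)
      · refine (natDegree_C_mul_le _ _).trans ?_
        rw [natDegree_X]
        omega
      · rw [natDegree_C]
        omega
    have hd : P.natDegree = m + 1 := by
      show (X ^ (m + 1) + _ : F[X]).natDegree = m + 1
      rw [natDegree_add_eq_left_of_natDegree_lt]
      · simp
      · rw [natDegree_X_pow]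
        omega
    have hP : P ≠ 0 := by
      intro h
      rw [h, natDegree_zero] at hd
      omega
    have h := card_zeros hP
    rw [hd] at h
    refine le_trans ?_ h
    refine Finset.card_le_card_of_injOn (fun p => uv p 0) ?_ ?_
    · intro p hp
      rcases UP_cases p with rfl | ⟨x, y, hxy, rfl⟩
      · simp only [Finset.coe_filter, Finset.mem_univ, true_and, Set.mem_ofPred_eq] at hp
        rw [ev_inf] at hp
        exact absurd hp hb
      · simp only [Finset.coe_filter, Finset.mem_univ, true_and, Set.mem_ofPred_eq] at hp ⊢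
        rw [ev_aff] at hp
        have hy : y = -(A * x) - C' := by
          rw [hA, hC]
          field_simp
          linear_combination hp
        have hym : y ^ m = -(A ^ m * x ^ m) - C' ^ m := by
          rw [hy, conj_sub hF, conj_neg hm hF, mul_pow]
        show P.eval x = 0
        simp only [P, eval_add, eval_mul, eval_pow, eval_X, eval_C]
        rw [← hxy, hym, hy]
        ring
    · intro p hp q hq hpq
      rcases UP_cases p with rfl | ⟨x, y, hxy, rfl⟩
      · simp only [Finset.coe_filter, Finset.mem_univ, true_and, Set.mem_ofPred_eq] at hp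
        rw [ev_inf] at hp
        exact absurd hp hb
      rcases UP_cases q with rfl | ⟨x', y', hxy', rfl⟩
      · simp only [Finset.coe_filter, Finset.mem_univ, true_and, Set.mem_ofPred_eq] at hq
        rw [ev_inf] at hq
        exact absurd hq hb
      simp only [Finset.coe_filter, Finset.mem_univ, true_and, Set.mem_ofPred_eq] at hp hq
      rw [ev_aff] at hp hq
      have hx : x = x' := hpq
      subst hx
      have hy : y = y' := by
        have h1 : b * (y - y') = 0 := by linear_combination hp - hq
        rcases mul_eq_zero.1 h1 with h2 | h2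
        · exact absurd h2 hb
        · exact sub_eq_zero.1 h2
      subst hy
      rfl

end

end Pool.Agent.Y391.TB
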