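import Pool.Agent.Y391.TB.Herm

/-!
The Hermitian unital as a geometry: it is a tangential `1`-block without a modular hyperplane.
-/

set_option autoImplicit false

namespace Pool.Agent.Y391.TB

open Set Module Submodule Pool.Agent.Helper236 Pool.Agent.Helper236.Size

section

variable (F : Type) [Field F] [Finite F] (m : ℕ)

/-- the geometry of the unital -/
noncomputable def umat : Matroid (UP F m) :=
  linMatroid F (uv : UP F m → (Fin 3 → F)) univ (Set.toFinite _)

variable {F m}

theorem umat_E : (umat F m).E = univ := rfl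

theorem umat_finite : (umat F m).Finite := ⟨Set.toFinite _⟩

theorem umat_rep : Rep F (umat F m) uv := linMatroid_rep _ _ _

theorem uv_ne_zero (p : UP F m) : uv p ≠ 0 := by
  intro h
  rcases UP_cases p with rfl | ⟨x, y, hxy, rfl⟩
  · rw [uv_inf] at h
    have := congrFun h 1
    simp at this
  · rw [uv_aff] at h
    have := congrFun h 2
    simp at this

theorem tangentL (hm : 2 ≤ m) (hF : Nat.card F = m ^ 2) (p : UP F m) :
    ∃ f : (Fin 3 → F) →ₗ[F] F, f (uv p) = 0 ∧ ∀ q, q ≠ p → f (uv q) ≠ 0 := by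
  obtain ⟨a, b, c, h1, h2⟩ := tangent hm hF p
  exact ⟨ev3L a b c, h1, h2⟩

theorem uv_smul (hm : 2 ≤ m) (hF : Nat.card F = m ^ 2) {p q : UP F m} (hpq : p ≠ q) (c : F) :
    c • uv p ≠ uv q := by
  intro h
  obtain ⟨f, h1, h2⟩ := tangentL hm hF p
  apply h2 q hpq.symm
  rw [← h, map_smul, h1, smul_zero]

theorem umat_simple (hm : 2 ≤ m) (hF : Nat.card F = m ^ 2) : IsSimple (umat F m) := by
  intro e _ f _
  rw [umat_rep _ (subset_univ _)]
  by_cases hef : e = f
  · subst hef
    simpa using uv_ne_zero e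
  · rw [linearIndepOn_pair_iff _ hef (uv_ne_zero e)]
    exact fun c => uv_smul hm hF hef c

theorem umat_rank_le : rk (umat F m) (umat F m).E ≤ 3 := by
  have := umat_finite (F := F) (m := m)
  rw [umat_rep.rk_eq Subset.rfl]
  refine (Submodule.finrank_le _).trans ?_
  rw [Module.finrank_fin_fun]

theorem umat_rank (hm : 2 ≤ m) (hF : Nat.card F = m ^ 2) :
    rk (umat F m) (umat F m).E = 3 := by
  classical
  have hFt : Fintype F := Fintype.ofFinite _
  have := umat_finite (F := F) (m := m)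
  apply le_antisymm umat_rank_le
  have h00 : (0 : F) + 0 ^ m = 0 ^ (m + 1) := by
    rw [conj_zero hm, zero_pow (by omega), add_zero]
  obtain ⟨y, hy⟩ : ∃ y : F, y + y ^ m = 1 ^ (m + 1) := by
    have h1 := card_TF hm hF (norm_mem hF (1 : F))
    have h2 : (TF m ((1 : F) ^ (m + 1))).Nonempty := by
      rw [← Finset.card_pos, h1]
      omega
    obtain ⟨y, hy⟩ := h2
    simp only [TF, Finset.mem_filter, Finset.mem_univ, true_and] at hy
    exact ⟨y, hy⟩
  have h : LinearIndependent F ![uv (pinf : UP F m), uv (paff 0 0 h00), uv (paff 1 y hy)] := by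
    rw [Fintype.linearIndependent_iff]
    intro g hg
    rw [Fin.sum_univ_three] at hg
    have e0 := congrFun hg 0
    have e1 := congrFun hg 1
    have e2 := congrFun hg 2
    simp [uv_inf, uv_aff] at e0 e1 e2
    rw [e0] at e1 e2
    simp at e1 e2
    intro i
    fin_cases i
    · exact e1
    · exact e2
    · exact e0
  rw [umat_rep.rk_eq Subset.rfl]
  have h1 := finrank_span_eq_card h
  have h2 : finrank F (span F (range ![uv (pinf : UP F m), uv (paff 0 0 h00),
      uv (paff 1 y hy)])) = 3 := by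
    rw [h1]
    simp
  refine h2.symm.le.trans ?_
  apply Submodule.finrank_mono
  apply span_mono
  rintro _ ⟨x, rfl⟩
  fin_cases x
  · exact ⟨pinf, mem_univ _, rfl⟩
  · exact ⟨paff 0 0 h00, mem_univ _, rfl⟩
  · exact ⟨paff 1 y hy, mem_univ _, rfl⟩

theorem umat_block (hm : 2 ≤ m) (hF : Nat.card F = m ^ 2)
    (f : (Fin 3 → F) →ₗ[F] (Fin 1 → F)) : ∃ e ∈ (umat F m).E, f (uv e) = 0 := by
  let g : (Fin 3 → F) →ₗ[F] F := (LinearMap.proj 0).comp f
  obtain ⟨i, hi⟩ := block hm hF (g (Pi.single 0 1)) (g (Pi.single 1 1)) (g (Pi.single 2 1))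
  rw [← eq_ev3] at hi
  refine ⟨i, mem_univ _, ?_⟩
  ext j
  rw [Subsingleton.elim j 0]
  exact hi

theorem umat_critExp (hm : 2 ≤ m) (hF : Nat.card F = m ^ 2) :
    ((1 : ℕ) : ℕ∞) < critExp (umat F m) (Nat.card F) := by
  have := umat_finite (F := F) (m := m)
  exact (lt_critExp_iff umat_rep 1).2 (umat_block hm hF)

theorem umat_minor (hm : 2 ≤ m) (hF : Nat.card F = m ^ 2) {N : Matroid (UP F m)}
    (hN : N.IsMinor (umat F m)) (hne : N ≠ umat F m) (hl : ∀ e ∈ N.E, N.IsNonloop e) :
    critExp N (Nat.card F) ≤ (1 : ℕ) := by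
  have := umat_finite (F := F) (m := m)
  exact minor_le umat_rep (umat_simple hm hF) (fun G hG hGne => rank_three_flats umat_rep
    (umat_simple hm hF) umat_rank_le (fun e _ => by
      obtain ⟨f, h1, h2⟩ := tangentL hm hF e
      exact ⟨f, h1, fun x _ hx => h2 x hx⟩) G hG hGne) hN hne hl

open Classical in
theorem zeros_card (hm : 2 ≤ m) (hF : Nat.card F = m ^ 2) [Fintype (UP F m)]
    {f : (Fin 3 → F) →ₗ[F] F} (hf : f ≠ 0) :
    (Finset.univ.filter (fun p : UP F m => f (uv p) = 0)).card ≤ m + 1 := by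
  have h1 : ∀ p : UP F m, f (uv p) = ev3 (f (Pi.single 0 1)) (f (Pi.single 1 1))
      (f (Pi.single 2 1)) (uv p) := fun p => eq_ev3 f _
  simp_rw [h1]
  apply line_card hm hF
  by_contra hc
  push Not at hc
  apply hf
  ext x
  rcases hc with ⟨h0, h1, h2⟩
  fin_cases x
  · simpa using h0
  · simpa using h1
  · simpa using h2

/-- a line through two given points -/
theorem exists_line (u w : Fin 3 → F) :
    ∃ f : (Fin 3 → F) →ₗ[F] F, f ≠ 0 ∧ f u = 0 ∧ f w = 0 := by
  have hlt : span F (range ![u, w]) < ⊤ := by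
    apply Submodule.lt_top_of_finrank_lt_finrank
    rw [Module.finrank_fin_fun]
    have h1 : finrank F (span F (range ![u, w])) ≤ Fintype.card (Fin 2) :=
      finrank_range_le_card (R := F) ![u, w]
    rw [Fintype.card_fin] at h1
    omega
  obtain ⟨f, hf, hle⟩ := Submodule.exists_le_ker_of_lt_top _ hlt
  exact ⟨f, hf, hle (subset_span ⟨0, rfl⟩), hle (subset_span ⟨1, rfl⟩)⟩

theorem umat_not_modular (hm : 2 ≤ m) (hF : Nat.card F = m ^ 2) :
    ¬ ∃ H, IsModularHyperplane (umat F m) H := by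
  classical
  have := umat_finite (F := F) (m := m)
  have hUt : Fintype (UP F m) := Fintype.ofFinite _
  rintro ⟨H, hH⟩
  obtain ⟨φ, hφ0, hφ1⟩ := exists_functional umat_rep hH.1.1 hH.2
  have hne : ∃ i, i ∉ H := by
    by_contra hcon
    push Not at hcon
    have h1 : H = (umat F m).E := Subset.antisymm (subset_univ _) (fun x _ => hcon x)
    have h2 := hH.2
    rw [h1] at h2
    omega
  obtain ⟨i, hi⟩ := hne
  have hφ : φ ≠ 0 := by
    intro h
    apply hφ1 i (mem_univ _) hi
    rw [h]
    rfl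
  set Hf : Finset (UP F m) := Finset.univ.filter (fun p => φ (uv p) = 0) with hHf
  have hmem : ∀ p, p ∈ Hf ↔ p ∈ H := by
    intro p
    simp only [hHf, Finset.mem_filter, Finset.mem_univ, true_and]
    constructor
    · intro h
      by_contra hp
      exact hφ1 p (mem_univ _) hp h
    · exact hφ0 p
  have hHc : Hf.card ≤ m + 1 := zeros_card hm hF hφ
  have key : ∀ j, ∃ x : UP F m, j ≠ i → j ∉ H → x ∈ H ∧
      ∀ f : (Fin 3 → F) →ₗ[F] F, f (uv i) = 0 → f (uv x) = 0 → f (uv j) = 0 := by
    intro j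
    by_cases hji : j ≠ i ∧ j ∉ H
    · obtain ⟨x, hx, c, hc, hxc⟩ := modular_diff umat_rep (umat_simple hm hF) hH hφ0 hφ1
        (mem_univ i) hi (mem_univ j) hji.2 hji.1.symm
      refine ⟨x, fun _ _ => ⟨hx, fun f h1 h2 => ?_⟩⟩
      have h3 := congrArg f hxc
      rw [map_sub, map_smul, map_smul, map_smul, h1, h2, smul_zero, smul_zero, zero_sub,
        neg_eq_zero, smul_eq_mul] at h3
      rcases mul_eq_zero.1 h3 with h4 | h4
      · exact absurd (inv_eq_zero.1 h4) (hφ1 j (mem_univ _) hji.2)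
      · exact h4
    · refine ⟨i, fun h1 h2 => absurd ⟨h1, h2⟩ hji⟩
  choose g hg using key
  set S : Finset (UP F m) := (Finset.univ \ Hf).erase i with hS
  have hS1 : ∀ j ∈ S, g j ∈ Hf := by
    intro j hj
    simp only [hS, Finset.mem_erase, Finset.mem_sdiff, Finset.mem_univ, true_and] at hj
    rw [hmem]
    exact (hg j hj.1 (fun h => hj.2 ((hmem j).2 h))).1
  have hS2 : ∀ x ∈ Hf, (S.filter (fun j => g j = x)).card ≤ m - 1 := by
    intro x hx
    obtain ⟨f, hf, hf1, hf2⟩ := exists_line (uv i) (uv x)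
    have h1 := zeros_card hm hF hf
    have hix : i ≠ x := by
      rintro rfl
      exact hi ((hmem i).1 hx)
    have h2 : (insert i (insert x (S.filter (fun j => g j = x)))) ⊆
        Finset.univ.filter (fun p : UP F m => f (uv p) = 0) := by
      intro j hj
      simp only [Finset.mem_filter, Finset.mem_univ, true_and]
      rcases Finset.mem_insert.1 hj with rfl | hj
      · exact hf1
      rcases Finset.mem_insert.1 hj with rfl | hj
      · exact hf2
      rw [Finset.mem_filter] at hj
      obtain ⟨hjS, hjx⟩ := hj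
      simp only [hS, Finset.mem_erase, Finset.mem_sdiff, Finset.mem_univ, true_and] at hjS
      refine (hg j hjS.1 (fun h => hjS.2 ((hmem j).2 h))).2 f hf1 ?_
      rw [hjx]
      exact hf2
    have h3 : x ∉ S.filter (fun j => g j = x) := by
      intro h
      have := (Finset.mem_filter.1 h).1
      simp only [hS, Finset.mem_erase, Finset.mem_sdiff, Finset.mem_univ, true_and] at this
      exact this.2 hx
    have h4 : i ∉ insert x (S.filter (fun j => g j = x)) := by
      intro h
      rcases Finset.mem_insert.1 h with h | h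
      · exact hix h
      · have := (Finset.mem_filter.1 h).1
        simp only [hS, Finset.mem_erase] at this
        exact this.1 rfl
    have h5 := Finset.card_le_card h2
    rw [Finset.card_insert_of_notMem h4, Finset.card_insert_of_notMem h3] at h5
    omega
  have h1 := Finset.card_le_mul_card_image_of_maps_to hS1 (m - 1) hS2
  have h2 : S.card = m ^ 3 + 1 - Hf.card - 1 := by
    have hi' : i ∈ Finset.univ \ Hf := by
      simp only [Finset.mem_sdiff, Finset.mem_univ, true_and]
      exact fun h => hi ((hmem i).1 h)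
    rw [hS, Finset.card_erase_of_mem hi', Finset.card_sdiff_of_subset (Finset.subset_univ _),
      Finset.card_univ, ← Nat.card_eq_fintype_card, card_UP hm hF]
  rw [h2] at h1
  have h3 : (m - 1) * Hf.card ≤ (m - 1) * (m + 1) := Nat.mul_le_mul_left _ hHc
  obtain ⟨k, rfl⟩ : ∃ k, m = k + 2 := ⟨m - 2, by omega⟩
  have h4 : (k + 2) ^ 3 + 1 - Hf.card - 1 ≤ (k + 2 - 1) * (k + 2 + 1) := h1.trans h3
  have h5 : (k + 2) ^ 3 ≤ (k + 1) * (k + 3) + (k + 3) := by
    have : k + 2 - 1 = k + 1 := rfl
    rw [this] at h4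
    have h6 : (k + 2 + 1) = k + 3 := rfl
    rw [h6] at h4
    omega
  nlinarith [sq_nonneg (k : ℤ), h5]

theorem umat_inL (hm : 2 ≤ m) (hF : Nat.card F = m ^ 2) : InL F (umat F m) :=
  ⟨umat_finite, umat_simple hm hF, ⟨3, _, umat_rep⟩⟩

theorem umat_inExS (hm : 2 ≤ m) (hF : Nat.card F = m ^ 2) : InExS F 1 _ (umat F m) := by
  refine ⟨umat_inL hm hF, ?_⟩
  rintro N hN ⟨ht, hss⟩
  by_cases hne : N = umat F m
  · subst hne
    obtain ⟨G, hG, -⟩ := hss
    have hr := umat_rank hm hF
    obtain ⟨h1, h2⟩ := hG 2 (by omega)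
    exact umat_not_modular hm hF ⟨G 2, h1, by omega⟩
  · exact absurd (umat_minor hm hF hN hne (isSimple_nonloop ht.1.2.1)) (not_le.2 ht.2.1)

end

end Pool.Agent.Y391.TB
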